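import Pool.Agent.H821Z.Kok.Defs

namespace Pool.Agent.H821Z.Kok

universe u

variable {F : Type u} [Field F]

theorem lift_nat {A B : Type u} [NonUnitalNonAssocRing A] [Module F A] [IsScalarTower F A A]
    [SMulCommClass F A A] [NonUnitalNonAssocRing B] [Module F B] [IsScalarTower F B B]
    [SMulCommClass F B B] (g : A →ₙₐ[F] B) (φ : ℕ → A) (f : NAPoly F) :
    g (FreeNonUnitalNonAssocAlgebra.lift F φ f) =
      FreeNonUnitalNonAssocAlgebra.lift F (fun i => g (φ i)) f := by
  have : g.comp (FreeNonUnitalNonAssocAlgebra.lift F φ) =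
      FreeNonUnitalNonAssocAlgebra.lift F (fun i => g (φ i)) := by
    apply FreeNonUnitalNonAssocAlgebra.hom_ext
    intro x
    simp
  exact congrArg (fun h => h f) this

/-- The identities of `Γ` hold for substitutions from the subset `B`. -/
def SatOn (P : Alg F) (B : Set P.carrier) (Γ : Set (NAPoly F)) : Prop :=
  ∀ f ∈ Γ, ∀ φ : ℕ → P.carrier, (∀ i, φ i ∈ B) → FreeNonUnitalNonAssocAlgebra.lift F φ f = 0

theorem SatOn.mono {P : Alg F} {B B' : Set P.carrier} {Γ : Set (NAPoly F)} (h : SatOn P B Γ)
    (hB : B' ⊆ B) : SatOn P B' Γ := fun f hf φ hφ => h f hf φ fun i => hB (hφ i)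

theorem lift_mem (P : Alg F) (B : NonUnitalSubalgebra F P.carrier) (φ : ℕ → P.carrier)
    (hφ : ∀ i, φ i ∈ B) (f : NAPoly F) : FreeNonUnitalNonAssocAlgebra.lift F φ f ∈ B := by
  have h := lift_nat (NonUnitalSubalgebraClass.subtype B) (fun i => (⟨φ i, hφ i⟩ : B)) f
  have e : (fun i => (NonUnitalSubalgebraClass.subtype B) (⟨φ i, hφ i⟩ : B)) = φ := rfl
  rw [e] at h
  rw [← h]
  exact Subtype.property _

/-- A subalgebra as an algebra. -/
def Alg.sub (P : Alg F) (B : NonUnitalSubalgebra F P.carrier) : Alg F := ⟨B⟩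

theorem SatOn.sub {P : Alg F} {B : NonUnitalSubalgebra F P.carrier} {Γ : Set (NAPoly F)}
    (h : SatOn P B Γ) : (P.sub B).InVar Γ := by
  intro f hf φ
  have h1 := lift_nat (NonUnitalSubalgebraClass.subtype B) φ f
  exact Subtype.ext (h1.trans (h f hf _ (fun i => (φ i).2)))

/-- Quotient carrier. -/
def Quot (A : Alg F) (I : Submodule F A.carrier) (_hI : A.IsIdeal I) : Type u := A.carrier ⧸ I

section quot

variable (A : Alg F) (I : Submodule F A.carrier) (hI : A.IsIdeal I)

instance : AddCommGroup (Quot A I hI) := inferInstanceAs (AddCommGroup (A.carrier ⧸ I))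
instance : Module F (Quot A I hI) := inferInstanceAs (Module F (A.carrier ⧸ I))

/-- The projection. -/
def Quot.mk : A.carrier →ₗ[F] Quot A I hI := I.mkQ

theorem Quot.mk_surj : Function.Surjective (Quot.mk A I hI) := I.mkQ_surjective

theorem Quot.mk_eq_zero {x : A.carrier} : Quot.mk A I hI x = 0 ↔ x ∈ I :=
  Submodule.Quotient.mk_eq_zero I

/-- The bilinear multiplication on the quotient. -/
noncomputable def Quot.mulL : Quot A I hI →ₗ[F] Quot A I hI →ₗ[F] Quot A I hI :=
  LinearMap.liftQ₂ I I ((LinearMap.mul F A.carrier).compr₂ I.mkQ)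
    (fun x hx => by
      rw [LinearMap.mem_ker]
      ext y
      exact (Submodule.Quotient.mk_eq_zero I).2 (hI y x hx).2)
    (fun x hx => by
      rw [LinearMap.mem_ker]
      ext y
      exact (Submodule.Quotient.mk_eq_zero I).2 (hI y x hx).1)

noncomputable instance : Mul (Quot A I hI) := ⟨fun x y => Quot.mulL A I hI x y⟩

theorem Quot.mul_def (x y : Quot A I hI) : x * y = Quot.mulL A I hI x y := rfl

theorem Quot.mk_mul (x y : A.carrier) :
    Quot.mk A I hI (x * y) = Quot.mk A I hI x * Quot.mk A I hI y := rfl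

noncomputable instance : NonUnitalNonAssocRing (Quot A I hI) where
  left_distrib a b c := by simp only [Quot.mul_def, map_add]
  right_distrib a b c := by simp only [Quot.mul_def, map_add, LinearMap.add_apply]
  zero_mul a := by simp only [Quot.mul_def, map_zero, LinearMap.zero_apply]
  mul_zero a := by simp only [Quot.mul_def, map_zero]

instance : IsScalarTower F (Quot A I hI) (Quot A I hI) :=
  ⟨fun c x y => by
    simp only [smul_eq_mul, Quot.mul_def, map_smul, LinearMap.smul_apply]⟩

instance : SMulCommClass F (Quot A I hI) (Quot A I hI) :=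
  ⟨fun c x y => by
    simp only [smul_eq_mul, Quot.mul_def, map_smul]⟩

/-- The quotient algebra. -/
noncomputable def Alg.quot : Alg F := ⟨Quot A I hI⟩

/-- The projection as an algebra map. -/
noncomputable def Quot.mkHom : A.carrier →ₙₐ[F] Quot A I hI where
  toFun := Quot.mk A I hI
  map_smul' c x := map_smul _ c x
  map_zero' := map_zero _
  map_add' x y := map_add _ x y
  map_mul' x y := Quot.mk_mul A I hI x y

theorem Alg.InVar.quot {Γ : Set (NAPoly F)} (h : A.InVar Γ) : (A.quot I hI).InVar Γ := by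
  intro f hf φ
  choose ψ hψ using fun i => Quot.mk_surj A I hI (φ i)
  have h1 := lift_nat (Quot.mkHom A I hI) ψ f
  rw [h f hf ψ, map_zero] at h1
  have e : (fun i => (Quot.mkHom A I hI) (ψ i)) = φ := funext hψ
  rw [e] at h1
  exact h1.symm

end quot

/-- In a locally nilpotent algebra the right multiplication by `h` kills `u` after finitely many
steps. -/
theorem Alg.IsLocallyNilpotent.iterate {A : Alg F} (hA : A.IsLocallyNilpotent)
    (v h : A.carrier) : ∃ n : ℕ, (fun z => z * h)^[n] v = 0 := by
  classical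
  obtain ⟨n, hn⟩ := hA {v, h}
  have hv : v ∈ A.gen (({v, h} : Finset A.carrier) : Set A.carrier) :=
    NonUnitalAlgebra.subset_adjoin F (by simp)
  have hh : h ∈ A.gen (({v, h} : Finset A.carrier) : Set A.carrier) :=
    NonUnitalAlgebra.subset_adjoin F (by simp)
  have key : ∀ k : ℕ, ∃ w : FreeMagma (A.gen (({v, h} : Finset A.carrier) : Set A.carrier)),
      k ≤ w.length ∧ A.word _ w = (fun z => z * h)^[k] v := by
    intro k
    induction k with
    | zero => exact ⟨FreeMagma.of ⟨v, hv⟩, Nat.zero_le _, rfl⟩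
    | succ k ih =>
      obtain ⟨w, hw, hw'⟩ := ih
      refine ⟨w * FreeMagma.of ⟨h, hh⟩, ?_, ?_⟩
      · show k + 1 ≤ w.length + 1
        omega
      · rw [Function.iterate_succ_apply', ← hw']
        rfl
  obtain ⟨w, hw, hw'⟩ := key n
  exact ⟨n, by rw [← hw']; exact hn w hw⟩

/-- The span of the products of at least `n` elements of the subalgebra generated by `s`. -/
def Wsp (A : Alg F) (s : Finset A.carrier) (n : ℕ) : Submodule F A.carrier :=
  Submodule.span F {z | ∃ w : FreeMagma (A.gen s), n ≤ w.length ∧ A.word (A.gen s) w = z}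

theorem Wsp_mul {A : Alg F} {s : Finset A.carrier} {n : ℕ} {z y : A.carrier}
    (hz : z ∈ Wsp A s n) (hy : y ∈ s) : z * y ∈ Wsp A s (n + 1) ∧ y * z ∈ Wsp A s (n + 1) := by
  have hy' : y ∈ A.gen (s : Set A.carrier) := NonUnitalAlgebra.subset_adjoin F hy
  induction hz using Submodule.span_induction with
  | mem x hx =>
    obtain ⟨w, hw, rfl⟩ := hx
    constructor
    · refine Submodule.subset_span ⟨w * FreeMagma.of ⟨y, hy'⟩, ?_, rfl⟩
      show n + 1 ≤ w.length + 1
      omega
    · refine Submodule.subset_span ⟨FreeMagma.of ⟨y, hy'⟩ * w, ?_, rfl⟩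
      show n + 1 ≤ 1 + w.length
      omega
  | zero => simp
  | add a b _ _ ha hb =>
    rw [add_mul, mul_add]
    exact ⟨add_mem ha.1 hb.1, add_mem ha.2 hb.2⟩
  | smul c a _ ha =>
    rw [smul_mul_assoc, mul_smul_comm]
    exact ⟨Submodule.smul_mem _ _ ha.1, Submodule.smul_mem _ _ ha.2⟩

theorem Wsp_anti {A : Alg F} {s : Finset A.carrier} {n : ℕ} : Wsp A s (n + 1) ≤ Wsp A s n :=
  Submodule.span_mono fun _ ⟨w, hw, hw'⟩ => ⟨w, by omega, hw'⟩

/-- No simple algebra is locally nilpotent. -/
theorem not_simple_of_locNil {A : Alg F} (hA : A.IsLocallyNilpotent) : ¬ A.IsSimple := by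
  classical
  rintro ⟨⟨a, b, hab⟩, hs⟩
  let I : Submodule F A.carrier :=
    { carrier := {z | ∃ s : Finset A.carrier, ∀ s' : Finset A.carrier, s ⊆ s' → ∀ n,
        a * b ∈ Wsp A s' n → z ∈ Wsp A s' n}
      add_mem' := by
        rintro x y ⟨s, hs⟩ ⟨t, ht⟩
        exact ⟨s ∪ t, fun s' h n hn => add_mem
          (hs s' (Finset.union_subset_left h) n hn) (ht s' (Finset.union_subset_right h) n hn)⟩
      zero_mem' := ⟨∅, fun _ _ _ _ => zero_mem _⟩
      smul_mem' := by
        rintro c x ⟨s, hs⟩
        exact ⟨s, fun s' h n hn => Submodule.smul_mem _ _ (hs s' h n hn)⟩ }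
  have hI : A.IsIdeal I := by
    rintro y x ⟨s, hs⟩
    constructor
    · refine ⟨insert y s, fun s' h n hn => Wsp_anti (Wsp_mul (hs s' ?_ n hn) ?_).2⟩
      · exact (Finset.subset_insert y s).trans h
      · exact h (Finset.mem_insert_self y s)
    · refine ⟨insert y s, fun s' h n hn => Wsp_anti (Wsp_mul (hs s' ?_ n hn) ?_).1⟩
      · exact (Finset.subset_insert y s).trans h
      · exact h (Finset.mem_insert_self y s)
  have habI : a * b ∈ I := ⟨∅, fun _ _ _ hn => hn⟩
  rcases hs I hI with h | h
  · rw [h] at habI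
    exact hab habI
  · have haI : a ∈ I := by rw [h]; trivial
    obtain ⟨s, hs⟩ := haI
    set s' := insert a (insert b s) with hs'
    have hsub : s ⊆ s' := (Finset.subset_insert b s).trans (Finset.subset_insert a _)
    have ha : a ∈ s' := Finset.mem_insert_self _ _
    have hb : b ∈ s' := Finset.mem_insert_of_mem (Finset.mem_insert_self _ _)
    have key : ∀ n, a ∈ Wsp A s' n := by
      intro n
      induction n with
      | zero =>
        exact Submodule.subset_span
          ⟨FreeMagma.of ⟨a, NonUnitalAlgebra.subset_adjoin F ha⟩, Nat.zero_le _, rfl⟩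
      | succ n ih => exact hs s' hsub _ (Wsp_mul ih hb).1
    obtain ⟨n, hn⟩ := hA s'
    have h0 : Wsp A s' n = ⊥ := by
      rw [Wsp, Submodule.span_eq_bot]
      rintro z ⟨w, hw, rfl⟩
      exact hn w hw
    have := key n
    rw [h0] at this
    apply hab
    rw [(Submodule.mem_bot F).1 this, zero_mul]

/-- A commutative associative simple algebra is a field. -/
theorem field_of_comm {A : Alg F} (hs : A.IsSimple)
    (hassoc : ∀ a b c : A.carrier, (a * b) * c = a * (b * c))
    (hcomm : ∀ a b : A.carrier, a * b = b * a) : A.IsFieldAlg := by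
  obtain ⟨⟨a, b, hab⟩, hs⟩ := hs
  have hann : ∀ x : A.carrier, (∀ y, x * y = 0) → x = 0 := by
    let I : Submodule F A.carrier :=
      { carrier := {x | ∀ y, x * y = 0}
        add_mem' := fun {x z} hx hz y => by rw [add_mul, hx y, hz y, add_zero]
        zero_mem' := fun y => zero_mul y
        smul_mem' := fun c x hx y => by rw [smul_mul_assoc, hx y, smul_zero] }
    have hI : A.IsIdeal I := fun z x hx =>
      ⟨fun y => by rw [hassoc, hx y, mul_zero], fun y => by rw [hx z, zero_mul]⟩
    rcases hs I hI with h | h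
    · intro x hx
      have : x ∈ I := hx
      rw [h] at this
      exact this
    · exfalso
      have : a ∈ I := by rw [h]; trivial
      exact hab (this b)
  have hsurj : ∀ x : A.carrier, x ≠ 0 → ∀ z, ∃ y, x * y = z := by
    intro x hx
    let I : Submodule F A.carrier := LinearMap.range (LinearMap.mul F A.carrier x)
    have hI : A.IsIdeal I := by
      rintro z _ ⟨y, rfl⟩
      refine ⟨⟨z * y, ?_⟩, ⟨y * z, ?_⟩⟩
      · simp only [LinearMap.mul_apply']
        rw [← hassoc, hcomm x z, hassoc]
      · simp only [LinearMap.mul_apply']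
        rw [hassoc]
    rcases hs I hI with h | h
    · exfalso
      apply hx
      apply hann
      intro y
      have : x * y ∈ I := ⟨y, rfl⟩
      rw [h] at this
      exact this
    · intro z
      have : z ∈ I := by rw [h]; trivial
      exact this
  have ha : a ≠ 0 := by rintro rfl; exact hab (zero_mul b)
  obtain ⟨e, he⟩ := hsurj a ha a
  refine ⟨hassoc, hcomm, e, ?_, ?_, fun x hx => hsurj x hx e⟩
  · rintro rfl
    exact ha (by rw [← he, mul_zero])
  · intro z
    obtain ⟨y, rfl⟩ := hsurj a ha z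
    rw [← hassoc, hcomm e a, he]

end Pool.Agent.H821Z.Kok
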