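import Pool.Agent.H821Z.Kok.Basic

namespace Pool.Agent.H821Z.Kok

universe u

variable {F : Type u} [Field F]

/-- A commutative ring with an anticommutative bracket that is a biderivation. -/
structure PB (F : Type u) [Field F] (R : Type u) [CommRing R] [Algebra F R] where
  br : R →ₗ[F] R →ₗ[F] R
  skew : ∀ a b, br a b = -br b a
  leib : ∀ a b c, br (a * b) c = a * br b c + b * br a c

variable {R : Type u} [CommRing R] [Algebra F R]

/-- The carrier of the algebra with product `a b + {a, b}`. -/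
def KT (_P : PB F R) : Type u := R

namespace KT

variable (P : PB F R)

instance : AddCommGroup (KT P) := inferInstanceAs (AddCommGroup R)
instance : Module F (KT P) := inferInstanceAs (Module F R)

/-- The underlying element. -/
def val (a : KT P) : R := a
/-- The element of the algebra. -/
def of (a : R) : KT P := a

instance : Mul (KT P) := ⟨fun a b => of P (val P a * val P b + P.br (val P a) (val P b))⟩

theorem mul_def (a b : KT P) :
    val P (a * b) = val P a * val P b + P.br (val P a) (val P b) := rfl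

theorem val_add (a b : KT P) : val P (a + b) = val P a + val P b := rfl
theorem val_zero : val P 0 = 0 := rfl
theorem val_smul (c : F) (a : KT P) : val P (c • a) = c • val P a := rfl
theorem ext {a b : KT P} (h : val P a = val P b) : a = b := h

instance : NonUnitalNonAssocRing (KT P) where
  left_distrib a b c := ext P (by simp only [mul_def, val_add, map_add]; ring)
  right_distrib a b c := ext P (by
    simp only [mul_def, val_add, map_add, LinearMap.add_apply]; ring)
  zero_mul a := ext P (by simp [mul_def, val_zero])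
  mul_zero a := ext P (by simp [mul_def, val_zero])

instance : IsScalarTower F (KT P) (KT P) :=
  ⟨fun c x y => ext P (by
    simp only [smul_eq_mul, mul_def, val_smul, map_smul, LinearMap.smul_apply, smul_add,
      smul_mul_assoc])⟩

instance : SMulCommClass F (KT P) (KT P) :=
  ⟨fun c x y => ext P (by
    simp only [smul_eq_mul, mul_def, val_smul, map_smul, smul_add, mul_smul_comm])⟩

end KT

/-- The algebra with product `a b + {a, b}`. -/
def PB.alg (P : PB F R) : Alg F := ⟨KT P⟩

namespace PB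

variable (P : PB F R)

theorem leib' (a b c : R) : P.br c (a * b) = a * P.br c b + b * P.br c a := by
  rw [P.skew, P.leib, P.skew b c, P.skew a c]; ring

theorem br_one (c : R) : P.br 1 c = 0 := by
  have := P.leib 1 1 c
  simp only [mul_one, one_mul] at this
  linear_combination -this

theorem br_pow (a c : R) (n : ℕ) : P.br (a ^ (n + 1)) c = (n + 1) * a ^ n * P.br a c := by
  induction n with
  | zero => simp
  | succ n ih => rw [pow_succ' a (n + 1), P.leib, ih]; push_cast; ring

theorem br_mem_pow (J : Ideal R) (n : ℕ) {a : R} (ha : a ∈ J ^ (n + 1)) (r : R) :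
    P.br a r ∈ J ^ n := by
  induction n generalizing a with
  | zero => simp
  | succ n ih =>
    rw [pow_succ] at ha
    refine Submodule.mul_induction_on ha (fun x hx y hy => ?_) (fun x y hx hy => ?_)
    · rw [P.leib]
      refine add_mem (Ideal.mul_mem_right _ _ hx) ?_
      rw [pow_succ']
      exact Ideal.mul_mem_mul hy (ih hx)
    · rw [map_add, LinearMap.add_apply]
      exact add_mem hx hy

theorem br_mem_pow_two (J : Ideal R) (n : ℕ) {a b : R} (ha : a ∈ J ^ (n + 1)) (hb : b ∈ J ^ 2) :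
    P.br a b ∈ J ^ (n + 1) := by
  rw [pow_two] at hb
  refine Submodule.mul_induction_on hb (fun x hx y hy => ?_) (fun x y hx hy => ?_)
  · rw [P.leib', pow_succ']
    exact add_mem (Ideal.mul_mem_mul hx (P.br_mem_pow J n ha y))
      (Ideal.mul_mem_mul hy (P.br_mem_pow J n ha x))
  · rw [map_add]
    exact add_mem hx hy

/-- An ideal closed under the bracket as a subalgebra. -/
def subalg (B : Ideal R) (hB : ∀ a ∈ B, ∀ b ∈ B, P.br a b ∈ B) :
    NonUnitalSubalgebra F P.alg.carrier where
  carrier := {a | KT.val P a ∈ B}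
  add_mem' := fun {a b} ha hb => add_mem (s := B) ha hb
  zero_mem' := zero_mem B
  mul_mem' := fun {a b} ha hb => add_mem (s := B) (Ideal.mul_mem_left _ _ hb) (hB _ ha _ hb)
  smul_mem' := fun c a ha => by
    show c • KT.val P a ∈ B
    rw [Algebra.smul_def]
    exact Ideal.mul_mem_left _ _ ha

/-- The core lemma: a bracket that is not nilpotent modulo an ideal containing both arguments
contradicts local admissibility. -/
theorem core {Γ : Set (NAPoly F)} (hΓ : LocallyAdmissible Γ) (h2 : (2 : F) ≠ 0) (𝔞 J : Ideal R)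
    (h𝔞 : ∀ a ∈ 𝔞, ∀ r, P.br a r ∈ 𝔞) (hsat : SatOn P.alg {a | KT.val P a ∈ 𝔞} Γ)
    {x y : R} (hx : x ∈ J) (hy : y ∈ J) (hc : P.br x y ∈ 𝔞)
    (hn : ∀ n : ℕ, P.br x y ^ n ∉ J) : False := by
  have hunit : ∀ r : R, 2 * r ∈ J → r ∈ J := by
    intro r hr
    have : r = algebraMap F R (2 : F)⁻¹ * (2 * r) := by
      rw [← mul_assoc, show (2 : R) = algebraMap F R 2 from (map_ofNat _ 2).symm, ← map_mul,
        inv_mul_cancel₀ h2, map_one, one_mul]
    rw [this]
    exact Ideal.mul_mem_left _ _ hr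
  have hxx : P.br x x = 0 := by
    have h1 := P.skew x x
    have h3 : (2 : F) • P.br x x = 0 := by rw [two_smul]; linear_combination h1
    exact (smul_eq_zero.1 h3).resolve_left h2
  set c := P.br x y with hcdef
  let B : Ideal R := 𝔞 ⊓ J ^ 2
  have hB : ∀ a ∈ B, ∀ b ∈ B, P.br a b ∈ B := fun a ha b hb =>
    ⟨h𝔞 a ha.1 b, P.br_mem_pow_two J 1 ha.2 hb.2⟩
  let Bs := P.subalg B hB
  have hBs : (P.alg.sub Bs).InVar Γ := SatOn.sub (hsat.mono fun a ha => ha.1)
  let I : Submodule F (P.alg.sub Bs).carrier :=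
    { carrier := {a | KT.val P a.1 ∈ J ^ 3}
      add_mem' := fun {a b} ha hb => add_mem (s := J ^ 3) ha hb
      zero_mem' := zero_mem (J ^ 3)
      smul_mem' := fun c a ha => by
        show c • KT.val P a.1 ∈ J ^ 3
        rw [Algebra.smul_def]
        exact Ideal.mul_mem_left _ _ ha }
  have hI : (P.alg.sub Bs).IsIdeal I := by
    intro a z hz
    have hz' : KT.val P z.1 ∈ J ^ 3 := hz
    have ha' : KT.val P a.1 ∈ J ^ 2 := a.2.2
    constructor
    · show KT.val P a.1 * KT.val P z.1 + P.br (KT.val P a.1) (KT.val P z.1) ∈ J ^ 3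
      refine add_mem (Ideal.mul_mem_left _ _ hz') ?_
      rw [P.skew]
      exact neg_mem (P.br_mem_pow_two J 2 hz' ha')
    · show KT.val P z.1 * KT.val P a.1 + P.br (KT.val P z.1) (KT.val P a.1) ∈ J ^ 3
      exact add_mem (Ideal.mul_mem_right _ _ hz') (P.br_mem_pow_two J 2 hz' ha')
  have h23 : ∀ a b : R, a ∈ J ^ 2 → b ∈ J ^ 2 → a * b ∈ J ^ 3 := by
    intro a b ha hb
    rw [show (3 : ℕ) = 2 + 1 from rfl, pow_succ]
    exact Ideal.mul_mem_mul ha (Ideal.pow_le_self (by norm_num) hb)
  have hC := Alg.InVar.quot _ I hI hBs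
  have hanti : ((P.alg.sub Bs).quot I hI).IsAnticomm := by
    intro a b
    obtain ⟨a, rfl⟩ := Quot.mk_surj _ I hI a
    obtain ⟨b, rfl⟩ := Quot.mk_surj _ I hI b
    rw [eq_neg_iff_add_eq_zero]
    have : Quot.mk _ I hI (a * b + b * a) = 0 := by
      rw [Quot.mk_eq_zero]
      show (KT.val P a.1 * KT.val P b.1 + P.br (KT.val P a.1) (KT.val P b.1)) +
        (KT.val P b.1 * KT.val P a.1 + P.br (KT.val P b.1) (KT.val P a.1)) ∈ J ^ 3
      rw [P.skew (KT.val P b.1)]
      have e : ∀ p q s : R, (p * q + s) + (q * p + -s) = p * q + q * p := fun p q s => by ring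
      rw [e]
      exact add_mem (h23 _ _ a.2.2 b.2.2) (h23 _ _ b.2.2 a.2.2)
    rw [map_add, Quot.mk_mul, Quot.mk_mul] at this
    exact this
  have hxx2 : x * x ∈ J ^ 2 := by rw [pow_two]; exact Ideal.mul_mem_mul hx hx
  have hxy2 : x * y ∈ J ^ 2 := by rw [pow_two]; exact Ideal.mul_mem_mul hx hy
  let v : ℕ → (P.alg.sub Bs).carrier := fun k =>
    ⟨KT.of P ((2 * c ^ 2) ^ k * c * (x * x)),
      ⟨Ideal.mul_mem_right _ _ (Ideal.mul_mem_left _ _ hc), Ideal.mul_mem_left _ _ hxx2⟩⟩
  let h : (P.alg.sub Bs).carrier :=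
    ⟨KT.of P (c * (x * y)), ⟨Ideal.mul_mem_right _ _ hc, Ideal.mul_mem_left _ _ hxy2⟩⟩
  have hx3 : x * x * x ∈ J ^ 3 := by
    rw [show (3 : ℕ) = 2 + 1 from rfl, pow_succ]; exact Ideal.mul_mem_mul hxx2 hx
  have hx2y : x * x * y ∈ J ^ 3 := by
    rw [show (3 : ℕ) = 2 + 1 from rfl, pow_succ]; exact Ideal.mul_mem_mul hxx2 hy
  have step : ∀ k, Quot.mk _ I hI (v k) * Quot.mk _ I hI h = Quot.mk _ I hI (v (k + 1)) := by
    intro k
    rw [← Quot.mk_mul, ← sub_eq_zero, ← map_sub, Quot.mk_eq_zero]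
    show ((2 * c ^ 2) ^ k * c * (x * x)) * (c * (x * y)) +
      P.br ((2 * c ^ 2) ^ k * c * (x * x)) (c * (x * y)) -
        (2 * c ^ 2) ^ (k + 1) * c * (x * x) ∈ J ^ 3
    generalize hg : (2 * c ^ 2) ^ k * c = g
    have e0 : (2 * c ^ 2) ^ (k + 1) * c = 2 * c ^ 2 * g := by rw [← hg]; ring
    rw [e0]
    have e : g * (x * x) * (c * (x * y)) + P.br (g * (x * x)) (c * (x * y)) -
        2 * c ^ 2 * g * (x * x) =
        (x * x * x) * (g * c * y + c * P.br g y) +
          (x * x * y) * (2 * g * P.br x c + c * P.br g x + x * P.br g c) := by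
      simp only [P.leib, P.leib', hxx, ← hcdef]
      ring
    rw [e]
    exact add_mem (Ideal.mul_mem_right _ _ hx3) (Ideal.mul_mem_right _ _ hx2y)
  obtain ⟨n, hn0⟩ := (hΓ _ hC hanti).iterate (Quot.mk _ I hI (v 0)) (Quot.mk _ I hI h)
  have hit : ∀ k, (fun z : Quot _ I hI => z * Quot.mk _ I hI h)^[k]
      (Quot.mk _ I hI (v 0)) = Quot.mk _ I hI (v k) := by
    intro k
    induction k with
    | zero => rfl
    | succ k ih => rw [Function.iterate_succ_apply', ih]; exact step k
  have hmem : (2 * c ^ 2) ^ n * c * (x * x) ∈ J ^ 3 :=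
    (Quot.mk_eq_zero _ I hI).1 ((hit n).symm.trans hn0)
  generalize hg : (2 * c ^ 2) ^ n * c = g at hmem
  have h1 := P.br_mem_pow J 1 (P.br_mem_pow J 2 hmem y) y
  rw [pow_one] at h1
  have e : P.br (P.br (g * (x * x)) y) y = 2 * (g * c ^ 2) +
      x * (2 * g * P.br c y + 4 * c * P.br g y + x * P.br (P.br g y) y) := by
    simp only [P.leib, map_add, LinearMap.add_apply, ← hcdef]
    ring
  rw [e] at h1
  have h3 : g * c ^ 2 ∈ J := hunit _ ((Submodule.add_mem_iff_left J
    (Ideal.mul_mem_right _ _ hx)).1 h1)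
  have h4 : ∀ k : ℕ, ∀ r : R, 2 ^ k * r ∈ J → r ∈ J := by
    intro k
    induction k with
    | zero => intro r hr; simpa using hr
    | succ k ih => intro r hr; exact hunit r (ih _ (by rw [← mul_assoc, ← pow_succ]; exact hr))
  apply hn (2 * n + 3)
  apply h4 n
  have : (2 : R) ^ n * c ^ (2 * n + 3) = g * c ^ 2 := by rw [← hg]; ring
  rw [this]
  exact h3

end PB

end Pool.Agent.H821Z.Kok
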