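import Mathlib

namespace Pool.Agent.H821Z.Kok

universe u

/-- A (not necessarily associative, not necessarily unital) algebra over the field `F`. -/
structure Alg (F : Type u) [Field F] : Type (u + 1) where
  carrier : Type u
  [ring : NonUnitalNonAssocRing carrier]
  [module : Module F carrier]
  [tower : IsScalarTower F carrier carrier]
  [comm : SMulCommClass F carrier carrier]

attribute [instance] Alg.ring Alg.module Alg.tower Alg.comm

variable {F : Type u} [Field F]

/-- Nonassociative polynomials without constant term in the variables `x₀, x₁, …`. -/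
abbrev NAPoly (F : Type u) [Field F] : Type u := FreeNonUnitalNonAssocAlgebra F ℕ

/-- `A` lies in the variety defined by the set of identities `Γ`: every `f ∈ Γ` vanishes under
every substitution of elements of `A` for the variables. -/
def Alg.InVar (A : Alg F) (Γ : Set (NAPoly F)) : Prop :=
  ∀ f ∈ Γ, ∀ φ : ℕ → A.carrier, FreeNonUnitalNonAssocAlgebra.lift F φ f = 0

/-- The commutator `[a, b] = ab - ba`. -/
def Alg.lie (A : Alg F) (a b : A.carrier) : A.carrier := a * b - b * a

/-- The associator `(a, b, c) = (ab)c - a(bc)`. -/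
def Alg.assoc (A : Alg F) (a b c : A.carrier) : A.carrier := (a * b) * c - a * (b * c)

/-- Kokoris algebra: `J(a,b,c) = 4 (a,b,c) - [[a,c],b]`, where
`J(a,b,c) = [[a,b],c] + [[b,c],a] + [[c,a],b]`. -/
def Alg.IsKokoris (A : Alg F) : Prop :=
  ∀ a b c : A.carrier,
    A.lie (A.lie a b) c + A.lie (A.lie b c) a + A.lie (A.lie c a) b =
      4 • A.assoc a b c - A.lie (A.lie a c) b

/-- Anticommutative algebra. -/
def Alg.IsAnticomm (A : Alg F) : Prop :=
  ∀ x y : A.carrier, x * y = -(y * x)

/-- The subalgebra generated by a set, as a set. -/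
def Alg.gen (A : Alg F) (s : Set A.carrier) : Set A.carrier :=
  NonUnitalAlgebra.adjoin F s

/-- The value in `A` of a bracketed word in elements of the subset `B`. -/
def Alg.word (A : Alg F) (B : Set A.carrier) (w : FreeMagma B) : A.carrier :=
  FreeMagma.lift (fun b : B => (b : A.carrier)) w

/-- Every finitely generated subalgebra is nilpotent: for some `n`, every product (in any
bracketing) of at least `n` elements of the subalgebra is zero. -/
def Alg.IsLocallyNilpotent (A : Alg F) : Prop :=
  ∀ s : Finset A.carrier, ∃ n : ℕ,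
    ∀ w : FreeMagma (A.gen s), n ≤ w.length → A.word (A.gen s) w = 0

/-- Two-sided ideal of the algebra. -/
def Alg.IsIdeal (A : Alg F) (I : Submodule F A.carrier) : Prop :=
  ∀ a : A.carrier, ∀ x ∈ I, a * x ∈ I ∧ x * a ∈ I

/-- Simple algebra: nonzero multiplication and no ideals but `0` and `A`. -/
def Alg.IsSimple (A : Alg F) : Prop :=
  (∃ a b : A.carrier, a * b ≠ 0) ∧ ∀ I : Submodule F A.carrier, A.IsIdeal I → I = ⊥ ∨ I = ⊤

/-- The algebra is a field: associative, commutative, with a nonzero identity element, and every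
nonzero element is invertible. -/
def Alg.IsFieldAlg (A : Alg F) : Prop :=
  (∀ a b c : A.carrier, (a * b) * c = a * (b * c)) ∧ (∀ a b : A.carrier, a * b = b * a) ∧
    ∃ e : A.carrier, e ≠ 0 ∧ (∀ a, e * a = a) ∧ ∀ a : A.carrier, a ≠ 0 → ∃ b, a * b = e

/-- Every anticommutative algebra of the variety defined by `Γ` is locally nilpotent. -/
def LocallyAdmissible (Γ : Set (NAPoly F)) : Prop :=
  ∀ A : Alg F, A.InVar Γ → A.IsAnticomm → A.IsLocallyNilpotent

end Pool.Agent.H821Z.Kok
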