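import Pool.Agent.H821Z.Kok.Nil

namespace Pool.Agent.H821Z.Kok

universe u

variable {F : Type u} [Field F]

section ident

variable {A : Alg F}

theorem two_cancel (h2 : (2 : F) ≠ 0) {z : A.carrier} (h : z + z = 0) : z = 0 := by
  have : (2 : F) • z = 0 := by rw [two_smul]; exact h
  exact (smul_eq_zero.1 this).resolve_left h2

/-- The symmetrised product. -/
def circ (A : Alg F) (a b : A.carrier) : A.carrier := a * b + b * a

theorem kok_star (hK : A.IsKokoris) (a b c : A.carrier) :
    circ A (circ A a b) c - circ A a (circ A b c) + (A.lie (circ A a b) c + circ A (A.lie a b) c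
      - A.lie a (circ A b c) - circ A a (A.lie b c)) = 0 := by
  have h := hK a b c
  simp only [Alg.lie, Alg.assoc, circ, mul_add, add_mul, mul_sub, sub_mul] at h ⊢
  rw [← sub_eq_zero] at h
  rw [← neg_eq_zero, ← h]
  abel

theorem kok_both (h2 : (2 : F) ≠ 0) (hK : A.IsKokoris) (a b c : A.carrier) :
    circ A (circ A a b) c = circ A a (circ A b c) ∧
      A.lie (circ A a b) c + circ A (A.lie a b) c - A.lie a (circ A b c) - circ A a (A.lie b c)
        = 0 := by
  have h1 := kok_star hK a b c
  have h3 := kok_star hK c b a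
  constructor
  · rw [← sub_eq_zero]
    apply two_cancel h2
    have : (circ A (circ A a b) c - circ A a (circ A b c)) +
        (circ A (circ A a b) c - circ A a (circ A b c)) =
        (circ A (circ A a b) c - circ A a (circ A b c) + (A.lie (circ A a b) c +
          circ A (A.lie a b) c - A.lie a (circ A b c) - circ A a (A.lie b c))) -
        (circ A (circ A c b) a - circ A c (circ A b a) + (A.lie (circ A c b) a +
          circ A (A.lie c b) a - A.lie c (circ A b a) - circ A c (A.lie b a))) := by
      simp only [Alg.lie, circ, mul_add, add_mul, mul_sub, sub_mul]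
      abel
    rw [this, h1, h3, sub_zero]
  · apply two_cancel h2
    have : (A.lie (circ A a b) c + circ A (A.lie a b) c - A.lie a (circ A b c) -
        circ A a (A.lie b c)) + (A.lie (circ A a b) c + circ A (A.lie a b) c -
          A.lie a (circ A b c) - circ A a (A.lie b c)) =
        (circ A (circ A a b) c - circ A a (circ A b c) + (A.lie (circ A a b) c +
          circ A (A.lie a b) c - A.lie a (circ A b c) - circ A a (A.lie b c))) +
        (circ A (circ A c b) a - circ A c (circ A b a) + (A.lie (circ A c b) a +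
          circ A (A.lie c b) a - A.lie c (circ A b a) - circ A c (A.lie b a))) := by
      simp only [Alg.lie, circ, mul_add, add_mul, mul_sub, sub_mul]
      abel
    rw [this, h1, h3, add_zero]

theorem kok_leib (h2 : (2 : F) ≠ 0) (hK : A.IsKokoris) (a b c : A.carrier) :
    A.lie (circ A a b) c = circ A a (A.lie b c) + circ A b (A.lie a c) := by
  have h1 := (kok_both h2 hK a b c).2
  have h3 := (kok_both h2 hK b c a).2
  have h4 := (kok_both h2 hK c a b).2
  rw [← sub_eq_zero]
  apply two_cancel h2
  have : (A.lie (circ A a b) c - (circ A a (A.lie b c) + circ A b (A.lie a c))) +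
      (A.lie (circ A a b) c - (circ A a (A.lie b c) + circ A b (A.lie a c))) =
      (A.lie (circ A a b) c + circ A (A.lie a b) c - A.lie a (circ A b c) - circ A a (A.lie b c))
      - (A.lie (circ A b c) a + circ A (A.lie b c) a - A.lie b (circ A c a) - circ A b (A.lie c a))
      + (A.lie (circ A c a) b + circ A (A.lie c a) b - A.lie c (circ A a b)
        - circ A c (A.lie a b)) := by
    simp only [Alg.lie, circ, mul_add, add_mul, mul_sub, sub_mul]
    abel
  rw [this, h1, h3, h4, sub_zero, add_zero]

end ident

/-- The carrier with the product `(ab + ba) / 2`. -/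
def Plus (A : Alg F) (_h2 : (2 : F) ≠ 0) (_hK : A.IsKokoris) : Type u := A.carrier

namespace Plus

variable (A : Alg F) (h2 : (2 : F) ≠ 0) (hK : A.IsKokoris)

instance : AddCommGroup (Plus A h2 hK) := inferInstanceAs (AddCommGroup A.carrier)
instance : Module F (Plus A h2 hK) := inferInstanceAs (Module F A.carrier)

/-- The underlying element. -/
def val (a : Plus A h2 hK) : A.carrier := a
/-- The element of the commutative ring. -/
def of (a : A.carrier) : Plus A h2 hK := a

instance : Mul (Plus A h2 hK) :=
  ⟨fun a b => of A h2 hK ((2 : F)⁻¹ • circ A (val A h2 hK a) (val A h2 hK b))⟩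

theorem mul_def (a b : Plus A h2 hK) :
    val A h2 hK (a * b) = (2 : F)⁻¹ • circ A (val A h2 hK a) (val A h2 hK b) := rfl
theorem val_add (a b : Plus A h2 hK) : val A h2 hK (a + b) = val A h2 hK a + val A h2 hK b := rfl
theorem val_zero : val A h2 hK 0 = 0 := rfl
theorem val_smul (c : F) (a : Plus A h2 hK) : val A h2 hK (c • a) = c • val A h2 hK a := rfl
theorem ext {a b : Plus A h2 hK} (h : val A h2 hK a = val A h2 hK b) : a = b := h

theorem circ_smul_left (c : F) (a b : A.carrier) : circ A (c • a) b = c • circ A a b := by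
  simp only [circ, smul_mul_assoc, mul_smul_comm, smul_add]

theorem circ_smul_right (c : F) (a b : A.carrier) : circ A a (c • b) = c • circ A a b := by
  simp only [circ, smul_mul_assoc, mul_smul_comm, smul_add]

instance : NonUnitalCommRing (Plus A h2 hK) where
  left_distrib a b c := ext A h2 hK (by
    simp only [mul_def, val_add, circ, mul_add, add_mul, smul_add]; abel)
  right_distrib a b c := ext A h2 hK (by
    simp only [mul_def, val_add, circ, mul_add, add_mul, smul_add]; abel)
  zero_mul a := ext A h2 hK (by simp [mul_def, val_zero, circ])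
  mul_zero a := ext A h2 hK (by simp [mul_def, val_zero, circ])
  mul_assoc a b c := ext A h2 hK (by
    simp only [mul_def, circ_smul_left, circ_smul_right, (kok_both h2 hK _ _ _).1])
  mul_comm a b := ext A h2 hK (by simp only [mul_def, circ, add_comm])

instance : IsScalarTower F (Plus A h2 hK) (Plus A h2 hK) :=
  ⟨fun c x y => ext A h2 hK (by
    simp only [smul_eq_mul, mul_def, val_smul, circ_smul_left, smul_comm c])⟩

instance : SMulCommClass F (Plus A h2 hK) (Plus A h2 hK) :=
  ⟨fun c x y => ext A h2 hK (by
    simp only [smul_eq_mul, mul_def, val_smul, circ_smul_right, smul_comm c])⟩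

/-- The bracket `(ab - ba) / 2`. -/
def brP : Plus A h2 hK →ₗ[F] Plus A h2 hK →ₗ[F] Plus A h2 hK :=
  LinearMap.mk₂ F (fun a b => of A h2 hK ((2 : F)⁻¹ • A.lie (val A h2 hK a) (val A h2 hK b)))
    (fun a b c => ext A h2 hK (by
      show (2 : F)⁻¹ • A.lie (val A h2 hK a + val A h2 hK b) (val A h2 hK c) =
        (2 : F)⁻¹ • A.lie (val A h2 hK a) (val A h2 hK c) +
          (2 : F)⁻¹ • A.lie (val A h2 hK b) (val A h2 hK c)
      simp only [Alg.lie, mul_add, add_mul, smul_add, smul_sub]; abel))
    (fun t a c => ext A h2 hK (by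
      show (2 : F)⁻¹ • A.lie (t • val A h2 hK a) (val A h2 hK c) =
        t • (2 : F)⁻¹ • A.lie (val A h2 hK a) (val A h2 hK c)
      simp only [Alg.lie, smul_mul_assoc, mul_smul_comm, ← smul_sub, smul_comm t]))
    (fun a b c => ext A h2 hK (by
      show (2 : F)⁻¹ • A.lie (val A h2 hK a) (val A h2 hK b + val A h2 hK c) =
        (2 : F)⁻¹ • A.lie (val A h2 hK a) (val A h2 hK b) +
          (2 : F)⁻¹ • A.lie (val A h2 hK a) (val A h2 hK c)
      simp only [Alg.lie, mul_add, add_mul, smul_add, smul_sub]; abel))
    (fun t a c => ext A h2 hK (by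
      show (2 : F)⁻¹ • A.lie (val A h2 hK a) (t • val A h2 hK c) =
        t • (2 : F)⁻¹ • A.lie (val A h2 hK a) (val A h2 hK c)
      simp only [Alg.lie, smul_mul_assoc, mul_smul_comm, ← smul_sub, smul_comm t]))

theorem val_brP (a b : Plus A h2 hK) :
    val A h2 hK (brP A h2 hK a b) = (2 : F)⁻¹ • A.lie (val A h2 hK a) (val A h2 hK b) := rfl

theorem brP_skew (a b : Plus A h2 hK) : brP A h2 hK a b = -brP A h2 hK b a :=
  ext A h2 hK (by
    show (2 : F)⁻¹ • A.lie (val A h2 hK a) (val A h2 hK b) =
      -((2 : F)⁻¹ • A.lie (val A h2 hK b) (val A h2 hK a))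
    simp only [Alg.lie, ← smul_neg, neg_sub])

theorem brP_leib (a b c : Plus A h2 hK) :
    brP A h2 hK (a * b) c = a * brP A h2 hK b c + b * brP A h2 hK a c :=
  ext A h2 hK (by
    have e : ∀ (t : F) (x y : A.carrier), A.lie (t • x) y = t • A.lie x y := fun t x y => by
      simp only [Alg.lie, smul_mul_assoc, mul_smul_comm, smul_sub]
    simp only [val_add, mul_def, val_brP, circ_smul_right, e, kok_leib h2 hK, smul_add])

theorem mul_add_brP (a b : A.carrier) :
    of A h2 hK a * of A h2 hK b + brP A h2 hK (of A h2 hK a) (of A h2 hK b) =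
      of A h2 hK (a * b) :=
  ext A h2 hK (by
    show (2 : F)⁻¹ • circ A a b + (2 : F)⁻¹ • A.lie a b = a * b
    rw [← smul_add, circ, Alg.lie, show a * b + b * a + (a * b - b * a) = (2 : F) • (a * b) by
      rw [two_smul]; abel, smul_smul, inv_mul_cancel₀ h2, one_smul])

/-- The bracket on the unitization. -/
def pb : PB F (Unitization F (Plus A h2 hK)) where
  br := ((brP A h2 hK).compl₁₂ (Unitization.sndHom F F _) (Unitization.sndHom F F _)).compr₂
    (Unitization.inrHom F F _)
  skew a b := by
    simp only [LinearMap.compr₂_apply, LinearMap.compl₁₂_apply]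
    rw [brP_skew, map_neg]
  leib a b c := by
    simp only [LinearMap.compr₂_apply, LinearMap.compl₁₂_apply, Unitization.sndHom_apply,
      Unitization.inrHom_apply]
    ext
    · simp
    · simp only [Unitization.snd_mul, map_add, map_smul, LinearMap.add_apply,
        LinearMap.smul_apply, brP_leib, Unitization.snd_inr, Unitization.snd_add,
        Unitization.fst_inr, zero_smul, add_zero]
      abel

theorem pb_br (a b : Unitization F (Plus A h2 hK)) :
    (pb A h2 hK).br a b = (brP A h2 hK a.snd b.snd : Plus A h2 hK) := rfl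

/-- The embedding into the algebra on the unitization. -/
def emb : A.carrier →ₙₐ[F] (pb A h2 hK).alg.carrier where
  toFun a := KT.of (pb A h2 hK) (of A h2 hK a : Plus A h2 hK)
  map_smul' c a := Unitization.inr_smul F c (of A h2 hK a)
  map_zero' := Unitization.inr_zero F
  map_add' a b := Unitization.inr_add F (of A h2 hK a) (of A h2 hK b)
  map_mul' a b := by
    show ((of A h2 hK (a * b) : Plus A h2 hK) : Unitization F (Plus A h2 hK)) =
      ((of A h2 hK a : Plus A h2 hK) : Unitization F (Plus A h2 hK)) *
        ((of A h2 hK b : Plus A h2 hK) : Unitization F (Plus A h2 hK)) +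
      (pb A h2 hK).br (of A h2 hK a : Plus A h2 hK) (of A h2 hK b : Plus A h2 hK)
    rw [← mul_add_brP, Unitization.inr_add, Unitization.inr_mul, pb_br, Unitization.snd_inr,
      Unitization.snd_inr]

end Plus

theorem simple_kokoris_field (h2 : (2 : F) ≠ 0) {Γ : Set (NAPoly F)} (hΓ : LocallyAdmissible Γ)
    {A : Alg F} (hA : A.InVar Γ) (hK : A.IsKokoris) (hs : A.IsSimple) : A.IsFieldAlg := by
  by_cases hcomm : ∀ a b : A.carrier, a * b = b * a
  · refine field_of_comm hs (fun a b c => ?_) hcomm
    have h := (kok_both h2 hK a b c).1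
    simp only [circ, mul_add, add_mul] at h
    rw [← hcomm a b, ← hcomm (a * b) c, ← hcomm b c, ← hcomm a (b * c)] at h
    rw [← sub_eq_zero]
    apply two_cancel h2
    apply two_cancel h2
    rw [← sub_eq_zero] at h
    rw [← h]
    abel
  exfalso
  by_cases hanti : A.IsAnticomm
  · exact not_simple_of_locNil (hΓ A hA hanti) hs
  let R := Unitization F (Plus A h2 hK)
  let P : PB F R := Plus.pb A h2 hK
  let 𝔞 : Ideal R := RingHom.ker (Unitization.fstHom F (Plus A h2 hK))
  have hmem : ∀ r : R, r ∈ 𝔞 ↔ r.fst = 0 := fun r => Iff.rfl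
  have hrep : ∀ r ∈ 𝔞, r = ((r.snd : Plus A h2 hK) : R) := by
    intro r hr
    ext
    · exact hr
    · rfl
  have hinr : ∀ a : Plus A h2 hK, (a : R) ∈ 𝔞 := fun a => rfl
  refine P.main hΓ h2 𝔞 (fun a _ r => hinr _) ?_ ?_ (fun r => ⟨_, hinr r.snd, fun z => rfl⟩) ?_ ?_
  · intro f hf φ hφ
    have e : φ = fun i => Plus.emb A h2 hK (Plus.val A h2 hK (KT.val P (φ i)).snd) :=
      funext fun i => hrep _ (hφ i)
    rw [e, ← lift_nat, hA f hf, map_zero]
  · intro 𝔟 h𝔟 hcl
    let I : Submodule F A.carrier :=
      { carrier := {a | ((Plus.of A h2 hK a : Plus A h2 hK) : R) ∈ 𝔟}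
        add_mem' := fun {a b} ha hb => by
          show ((Plus.of A h2 hK a + Plus.of A h2 hK b : Plus A h2 hK) : R) ∈ 𝔟
          rw [Unitization.inr_add]
          exact add_mem ha hb
        zero_mem' := by
          show ((0 : Plus A h2 hK) : R) ∈ 𝔟
          rw [Unitization.inr_zero]
          exact zero_mem _
        smul_mem' := fun c a ha => by
          show ((c • Plus.of A h2 hK a : Plus A h2 hK) : R) ∈ 𝔟
          rw [Unitization.inr_smul, Algebra.smul_def]
          exact Ideal.mul_mem_left _ _ ha }
    have hI : A.IsIdeal I := by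
      intro a x hx
      have hx' : ((Plus.of A h2 hK x : Plus A h2 hK) : R) ∈ 𝔟 := hx
      constructor
      · show ((Plus.of A h2 hK (a * x) : Plus A h2 hK) : R) ∈ 𝔟
        rw [← Plus.mul_add_brP, Unitization.inr_add, Unitization.inr_mul, Plus.brP_skew,
          Unitization.inr_neg]
        exact add_mem (Ideal.mul_mem_left _ _ hx')
          (neg_mem (hcl _ hx' ((Plus.of A h2 hK a : Plus A h2 hK) : R)))
      · show ((Plus.of A h2 hK (x * a) : Plus A h2 hK) : R) ∈ 𝔟
        rw [← Plus.mul_add_brP, Unitization.inr_add, Unitization.inr_mul]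
        exact add_mem (Ideal.mul_mem_right _ _ hx')
          (hcl _ hx' ((Plus.of A h2 hK a : Plus A h2 hK) : R))
    rcases hs.2 I hI with h | h
    · left
      rw [eq_bot_iff]
      intro z hz
      have h1 : Plus.val A h2 hK z.snd ∈ I := by
        show ((z.snd : Plus A h2 hK) : R) ∈ 𝔟
        rw [← hrep z (h𝔟 hz)]
        exact hz
      rw [h] at h1
      have h3 : z.snd = 0 := h1
      rw [hrep z (h𝔟 hz), h3, Unitization.inr_zero]
      exact zero_mem _
    · right
      refine le_antisymm h𝔟 fun z hz => ?_
      have h1 : Plus.val A h2 hK z.snd ∈ I := by rw [h]; trivial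
      rw [hrep z hz]
      exact h1
  · by_contra hcon
    push Not at hcon
    apply hanti
    intro a b
    have h1 := hcon _ (hinr (Plus.of A h2 hK a)) _ (hinr (Plus.of A h2 hK b))
    rw [← Unitization.inr_mul, ← Unitization.inr_zero F, Unitization.inr_inj] at h1
    have h3 : (2 : F)⁻¹ • circ A a b = 0 := congrArg (Plus.val A h2 hK) h1
    rw [eq_neg_iff_add_eq_zero]
    exact (smul_eq_zero.1 h3).resolve_left (inv_ne_zero h2)
  · by_contra hcon
    push Not at hcon
    apply hcomm
    intro a b
    have h1 := hcon _ (hinr (Plus.of A h2 hK a)) _ (hinr (Plus.of A h2 hK b))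
    have h4 : Plus.brP A h2 hK (Plus.of A h2 hK a) (Plus.of A h2 hK b) = 0 :=
      congrArg (fun r : R => r.snd) h1
    have h3 : (2 : F)⁻¹ • A.lie a b = 0 := congrArg (Plus.val A h2 hK) h4
    rw [← sub_eq_zero]
    exact (smul_eq_zero.1 h3).resolve_left (inv_ne_zero h2)

end Pool.Agent.H821Z.Kok
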