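import Pool.Agent.H821Z.Kok.Poly

namespace Pool.Agent.H821Z.Kok

universe u

variable {F : Type u} [Field F] {R : Type u} [CommRing R] [Algebra F R]

namespace PB

variable (P : PB F R)

open Classical in
/-- Iterated brackets of `b` with at most `i` elements of `X`. -/
noncomputable def Y (b : R) (X : Finset R) : ℕ → Finset R
  | 0 => {b}
  | i + 1 => Y b X i ∪ Finset.image₂ (fun u v => P.br u v) (Y b X i) X

/-- The ideal they generate. -/
noncomputable def N (b : R) (X : Finset R) (i : ℕ) : Ideal R := Ideal.span (P.Y b X i : Set R)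

/-- Products of `m` iterated brackets with at most `d` bracket operations in total. -/
noncomputable def G (b : R) (X : Finset R) : ℕ → ℕ → Ideal R
  | 0, _ => ⊤
  | m + 1, d => ⨆ i, ⨆ (_ : i ≤ d), P.N b X i * G b X m (d - i)

variable {b : R} {X : Finset R}

theorem N_succ (i : ℕ) : P.N b X i ≤ P.N b X (i + 1) := by
  classical
  apply Ideal.span_mono
  intro z hz
  simp only [Y, Finset.coe_union]
  exact Or.inl hz

theorem N_mono {i j : ℕ} (h : i ≤ j) : P.N b X i ≤ P.N b X j := by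
  induction h with
  | refl => exact le_rfl
  | step _ ih => exact ih.trans (P.N_succ _)

theorem br_N {i : ℕ} {z x : R} (hz : z ∈ P.N b X i) (hx : x ∈ X) : P.br z x ∈ P.N b X (i + 1) := by
  classical
  induction hz using Submodule.span_induction with
  | mem z hz =>
    apply Ideal.subset_span
    simp only [Y, Finset.coe_union]
    exact Or.inr (Finset.mem_coe.2 (Finset.mem_image₂_of_mem hz hx))
  | zero => simp
  | add a c _ _ ha hc => rw [map_add, LinearMap.add_apply]; exact add_mem ha hc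
  | smul r a ha' ha =>
    rw [smul_eq_mul, P.leib]
    exact add_mem (Ideal.mul_mem_left _ _ ha) (Ideal.mul_mem_right _ _ (P.N_succ i ha'))

theorem G_succ_d (m d : ℕ) : P.G b X m d ≤ P.G b X m (d + 1) := by
  induction m generalizing d with
  | zero => exact le_top
  | succ m ih =>
    simp only [G]
    refine iSup₂_le fun i hi => ?_
    refine le_trans ?_ (le_iSup₂_of_le i (by omega) le_rfl)
    rw [show d + 1 - i = d - i + 1 by omega]
    exact Ideal.mul_mono_right (ih _)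

theorem G_mono {m d e : ℕ} (h : d ≤ e) : P.G b X m d ≤ P.G b X m e := by
  induction h with
  | refl => exact le_rfl
  | step _ ih => exact ih.trans (P.G_succ_d _ _)

theorem br_G {m d : ℕ} {z x : R} (hz : z ∈ P.G b X m d) (hx : x ∈ X) :
    P.br z x ∈ P.G b X m (d + 1) := by
  induction m generalizing d z with
  | zero => trivial
  | succ m ih =>
    simp only [G] at hz
    refine Submodule.iSup_induction _ (motive := fun z => P.br z x ∈ P.G b X (m + 1) (d + 1)) hz
      (fun i z hz => ?_) (by simp) (fun u v hu hv => ?_)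
    · by_cases hi : i ≤ d
      · rw [iSup_pos hi] at hz
        refine Submodule.mul_induction_on hz (fun u hu v hv => ?_) (fun u v hu hv => ?_)
        · rw [P.leib]
          simp only [G]
          refine add_mem ?_ ?_
          · refine Submodule.mem_iSup_of_mem i (Submodule.mem_iSup_of_mem (by omega) ?_)
            rw [show d + 1 - i = d - i + 1 by omega]
            exact Ideal.mul_mem_mul hu (ih hv)
          · refine Submodule.mem_iSup_of_mem (i + 1) (Submodule.mem_iSup_of_mem (by omega) ?_)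
            rw [show d + 1 - (i + 1) = d - i by omega, mul_comm v]
            exact Ideal.mul_mem_mul (P.br_N hu hx) hv
        · rw [map_add, LinearMap.add_apply]; exact add_mem hu hv
      · rw [iSup_neg hi] at hz
        rw [(Submodule.mem_bot R).1 hz]
        simp
    · rw [map_add, LinearMap.add_apply]; exact add_mem hu hv

theorem mul_G {m d : ℕ} {z : R} (hz : z ∈ P.G b X m d) : z * b ∈ P.G b X (m + 1) d := by
  simp only [G]
  refine Submodule.mem_iSup_of_mem 0 (Submodule.mem_iSup_of_mem (Nat.zero_le _) ?_)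
  rw [mul_comm z b]
  exact Ideal.mul_mem_mul (Ideal.subset_span (by simp [Y])) hz

theorem G_le_pow (L : ℕ) {m d j : ℕ} (h : j + d / (L + 1) ≤ m) :
    P.G b X m d ≤ P.N b X L ^ j := by
  induction m generalizing d j with
  | zero =>
    have : j = 0 := Nat.eq_zero_of_add_eq_zero_right (Nat.le_zero.1 h)
    subst this
    simp
  | succ m ih =>
    simp only [G]
    refine iSup₂_le fun i hi => ?_
    rcases j with _ | j
    · simp
    by_cases hiL : i ≤ L
    · rw [pow_succ']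
      refine Ideal.mul_mono (P.N_mono hiL) (ih ?_)
      have : (d - i) / (L + 1) ≤ d / (L + 1) := Nat.div_le_div_right (Nat.sub_le _ _)
      omega
    · refine Ideal.mul_le_right.trans (ih ?_)
      have h1 : (d - i) / (L + 1) ≤ (d - (L + 1)) / (L + 1) :=
        Nat.div_le_div_right (by omega)
      have h2 : d / (L + 1) = (d - (L + 1)) / (L + 1) + 1 :=
        Nat.div_eq_sub_div (by omega) (by omega)
      omega

theorem Y_subset (𝔞 : Ideal R) (h𝔞 : ∀ a ∈ 𝔞, ∀ r, P.br a r ∈ 𝔞) (hb : b ∈ 𝔞) (i : ℕ) :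
    ∀ z ∈ P.Y b X i, z ∈ 𝔞 := by
  classical
  induction i with
  | zero => intro z hz; simp only [Y, Finset.mem_singleton] at hz; rw [hz]; exact hb
  | succ i ih =>
    intro z hz
    simp only [Y, Finset.mem_union, Finset.mem_image₂] at hz
    rcases hz with hz | ⟨u, hu, v, _, rfl⟩
    · exact ih z hz
    · exact h𝔞 u (ih u hu) v

/-- A bracket-simple nil ideal has zero multiplication. -/
theorem nil_case (𝔞 : Ideal R) (h𝔞 : ∀ a ∈ 𝔞, ∀ r, P.br a r ∈ 𝔞)
    (hs : ∀ 𝔟 : Ideal R, 𝔟 ≤ 𝔞 → (∀ z ∈ 𝔟, ∀ r, P.br z r ∈ 𝔟) → 𝔟 = ⊥ ∨ 𝔟 = 𝔞)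
    (hnil : ∀ a ∈ 𝔞, IsNilpotent a) {a b : R} (ha : a ∈ 𝔞) (hb : b ∈ 𝔞) : a * b = 0 := by
  classical
  by_contra hab
  let I : Ideal R :=
    { carrier := {z | z ∈ 𝔞 ∧ ∃ (s : Finset R) (K : ℕ), ∀ s' : Finset R, s ⊆ s' → ∀ m d,
        a * b ∈ P.G b s' m d → z ∈ P.G b s' m (d + K)}
      add_mem' := by
        rintro x y ⟨hx, s, K, hs⟩ ⟨hy, t, K', ht⟩
        exact ⟨add_mem hx hy, s ∪ t, K + K', fun s' h m d hn => add_mem
          (P.G_mono (by omega) (hs s' (Finset.union_subset_left h) m d hn))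
          (P.G_mono (by omega) (ht s' (Finset.union_subset_right h) m d hn))⟩
      zero_mem' := ⟨zero_mem _, ∅, 0, fun _ _ _ _ _ => zero_mem _⟩
      smul_mem' := by
        rintro c x ⟨hx, s, K, hs⟩
        exact ⟨Ideal.mul_mem_left _ _ hx, s, K, fun s' h m d hn =>
          Ideal.mul_mem_left _ _ (hs s' h m d hn)⟩ }
  have habI : a * b ∈ I := ⟨Ideal.mul_mem_right _ _ ha, ∅, 0, fun _ _ _ _ hn => hn⟩
  have hI : ∀ z ∈ I, ∀ r, P.br z r ∈ I := by
    rintro z ⟨hz, s, K, hs⟩ r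
    exact ⟨h𝔞 z hz r, insert r s, K + 1, fun s' h m d hn =>
      P.br_G (hs s' ((Finset.subset_insert r s).trans h) m d hn) (h (Finset.mem_insert_self r s))⟩
  rcases hs I (fun z hz => hz.1) hI with h | h
  · rw [h] at habI
    exact hab habI
  · have haI : a ∈ I := by rw [h]; exact ha
    obtain ⟨-, s, K, hK⟩ := haI
    have key : ∀ m, a ∈ P.G b s m (m * K) := by
      intro m
      induction m with
      | zero => trivial
      | succ m ih =>
        rw [add_mul, one_mul]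
        exact hK s le_rfl _ _ (P.mul_G ih)
    have hfg : (P.N b s (2 * K)).FG := ⟨_, rfl⟩
    have hle : P.N b s (2 * K) ≤ (⊥ : Ideal R).radical := by
      rw [N, Ideal.span_le]
      intro z hz
      obtain ⟨n, hn⟩ := hnil z (P.Y_subset 𝔞 h𝔞 hb _ z hz)
      exact ⟨n, hn⟩
    obtain ⟨ν, hν⟩ := Ideal.exists_pow_le_of_le_radical_of_fg hle hfg
    have h1 : ν + (2 * ν * K) / (2 * K + 1) ≤ 2 * ν := by
      have : (2 * ν * K) / (2 * K + 1) ≤ ν := by
        apply Nat.div_le_of_le_mul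
        nlinarith [Nat.zero_le ν]
      omega
    have := hν (P.G_le_pow (2 * K) h1 (key (2 * ν)))
    apply hab
    rw [(Submodule.mem_bot R).1 this, zero_mul]

/-- The abstract form of the theorem. -/
theorem main {Γ : Set (NAPoly F)} (hΓ : LocallyAdmissible Γ) (h2 : (2 : F) ≠ 0) (𝔞 : Ideal R)
    (h𝔞 : ∀ a ∈ 𝔞, ∀ r, P.br a r ∈ 𝔞) (hsat : SatOn P.alg {a | KT.val P a ∈ 𝔞} Γ)
    (hs : ∀ 𝔟 : Ideal R, 𝔟 ≤ 𝔞 → (∀ z ∈ 𝔟, ∀ r, P.br z r ∈ 𝔟) → 𝔟 = ⊥ ∨ 𝔟 = 𝔞)
    (hR : ∀ r, ∃ a ∈ 𝔞, ∀ z, P.br z r = P.br z a)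
    (hmul : ∃ a ∈ 𝔞, ∃ b ∈ 𝔞, a * b ≠ 0) (hbr : ∃ a ∈ 𝔞, ∃ b ∈ 𝔞, P.br a b ≠ 0) : False := by
  classical
  obtain ⟨a0, ha0, b0, hb0, hab0⟩ := hmul
  by_cases hnil : ∀ x ∈ 𝔞, ∀ y ∈ 𝔞, IsNilpotent (P.br x y)
  · have h := hs (𝔞 ⊓ nilradical R) inf_le_left (by
      intro z hz r
      obtain ⟨a, ha, hr⟩ := hR r
      exact ⟨h𝔞 z hz.1 r, by rw [hr]; exact hnil z hz.1 a ha⟩)
    rcases h with h | h
    · obtain ⟨a, ha, b, hb, hab⟩ := hbr
      have : P.br a b ∈ 𝔞 ⊓ nilradical R := ⟨h𝔞 a ha b, hnil a ha b hb⟩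
      rw [h] at this
      exact hab this
    · refine hab0 (P.nil_case 𝔞 h𝔞 hs (fun a ha => ?_) ha0 hb0)
      rw [← h] at ha
      exact ha.2
  push Not at hnil
  obtain ⟨x, hx, y, hy, hn⟩ := hnil
  have hc := h𝔞 x hx y
  rcases finite_or_infinite F with hF | hF
  swap
  · let e := Infinite.natEmbedding F
    refine P.inf_case hΓ h2 𝔞 h𝔞 hsat (fun i => algebraMap F R (e i)) (fun i r => ?_)
      (fun i j hij a _ h => ?_) hc hn
    · rw [Algebra.algebraMap_eq_smul_one, map_smul, LinearMap.smul_apply, P.br_one, smul_zero]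
    · rw [← map_sub, ← Algebra.smul_def, smul_eq_zero] at h
      exact h.resolve_left (sub_ne_zero.2 fun h' => hij (e.injective h'))
  -- the annihilator of `𝔞` in `𝔞` is zero
  have hann : ∀ z ∈ 𝔞, (∀ a ∈ 𝔞, z * a = 0) → z = 0 := by
    have h := hs (𝔞 ⊓ 𝔞.annihilator) inf_le_left (by
      intro z hz r
      refine ⟨h𝔞 z hz.1 r, Submodule.mem_annihilator.2 fun a ha => ?_⟩
      have h1 := P.leib z a r
      have h3 : z * a = 0 := Submodule.mem_annihilator.1 hz.2 a ha
      have h4 : z * P.br a r = 0 := Submodule.mem_annihilator.1 hz.2 _ (h𝔞 a ha r)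
      rw [h3, h4, map_zero, LinearMap.zero_apply, zero_add] at h1
      rw [smul_eq_mul, mul_comm]
      exact h1.symm)
    rcases h with h | h
    · intro z hz hz'
      have : z ∈ 𝔞 ⊓ 𝔞.annihilator := ⟨hz, Submodule.mem_annihilator.2 hz'⟩
      rw [h] at this
      exact this
    · exfalso
      rw [← h] at ha0
      exact hab0 (Submodule.mem_annihilator.1 ha0.2 b0 hb0)
  -- nonzero constants of `𝔞` act injectively
  have hinj : ∀ z ∈ 𝔞, (∀ r, P.br z r = 0) → z ≠ 0 → ∀ a ∈ 𝔞, z * a = 0 → a = 0 := by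
    intro z hz hzc hz0
    let T : Ideal R := LinearMap.ker (LinearMap.mul R R z)
    have hT : ∀ w, w ∈ T ↔ z * w = 0 := fun w => Iff.rfl
    have h := hs (𝔞 ⊓ T) inf_le_left (by
      intro w hw r
      refine ⟨h𝔞 w hw.1 r, (hT _).2 ?_⟩
      have h3 := (hT _).1 hw.2
      have h1 := P.leib z w r
      rw [h3, hzc, map_zero, LinearMap.zero_apply, mul_zero, add_zero] at h1
      exact h1.symm)
    rcases h with h | h
    · intro a ha hza
      have : a ∈ 𝔞 ⊓ T := ⟨ha, (hT _).2 hza⟩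
      rw [h] at this
      exact this
    · exfalso
      apply hz0
      refine hann z hz fun a ha => ?_
      rw [← h] at ha
      exact (hT _).1 ha.2
  let Z : Set R := {z | z ∈ 𝔞 ∧ ∀ r, P.br z r = 0}
  by_cases hZ : Z.Infinite
  · let e := hZ.natEmbedding Z
    refine P.inf_case hΓ h2 𝔞 h𝔞 hsat (fun i => (e i : R)) (fun i r => (e i).2.2 r)
      (fun i j hij a ha h => ?_) hc hn
    refine hinj _ (sub_mem (e i).2.1 (e j).2.1) (fun r => ?_) ?_ a ha h
    · rw [map_sub, LinearMap.sub_apply, (e i).2.2, (e j).2.2, sub_zero]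
    · exact sub_ne_zero.2 fun h' => hij (e.injective (Subtype.ext h'))
  rw [Set.not_infinite] at hZ
  obtain ⟨p, hp⟩ := CharP.exists F
  have hpp : p.Prime := (CharP.char_is_prime_or_zero F p).resolve_right
    (CharP.char_ne_zero_of_finite F p)
  have := Fact.mk hpp
  have : Nontrivial R := ⟨⟨a0 * b0, 0, hab0⟩⟩
  have : CharP R p := charP_of_injective_algebraMap (algebraMap F R).injective p
  have hpow : ∀ w r : R, ∀ k : ℕ, P.br (w ^ p ^ (k + 1)) r = 0 := by
    intro w r k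
    obtain ⟨q, hq⟩ : ∃ q, p ^ (k + 1) = q + 1 :=
      ⟨p ^ (k + 1) - 1, by have := Nat.pos_of_ne_zero (pow_ne_zero (k + 1) hpp.ne_zero); omega⟩
    have h0 : ((q : R) + 1) = 0 := by
      have : ((p ^ (k + 1) : ℕ) : R) = 0 := by
        rw [Nat.cast_pow, CharP.cast_eq_zero, zero_pow (Nat.succ_ne_zero k)]
      rw [hq] at this
      exact_mod_cast this
    rw [hq, P.br_pow, h0, zero_mul, zero_mul]
  have hfix : ∀ w ∈ 𝔞, ∃ w', IsNilpotent w' ∧ ∀ r, P.br w' r = P.br w r := by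
    intro w hw
    have hmem : ∀ k : ℕ, w ^ p ^ (k + 1) ∈ Z := fun k =>
      ⟨Ideal.pow_mem_of_mem _ hw _ (Nat.pos_of_ne_zero (pow_ne_zero _ hpp.ne_zero)),
        fun r => hpow w r k⟩
    obtain ⟨i, j, hij, h⟩ := hZ.exists_lt_map_eq_of_forall_mem hmem
    obtain ⟨k, rfl⟩ := Nat.exists_eq_add_of_lt hij
    refine ⟨w - w ^ p ^ (k + 1), ⟨p ^ (i + 1), ?_⟩, fun r => ?_⟩
    · rw [sub_pow_char_pow, ← pow_mul, ← pow_add, h, show k + 1 + (i + 1) = i + k + 1 + 1 by ring,
        sub_self]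
    · rw [map_sub, LinearMap.sub_apply, hpow, sub_zero]
  obtain ⟨x', hx', hx''⟩ := hfix x hx
  obtain ⟨y', hy', hy''⟩ := hfix y hy
  have hxy : P.br x' y' = P.br x y := by rw [hx'', P.skew, hy'', ← P.skew]
  refine P.core hΓ h2 𝔞 (nilradical R) h𝔞 hsat (x := x') (y := y') hx' hy' (hxy ▸ hc) ?_
  intro n hn'
  rw [hxy] at hn'
  exact hn (IsNilpotent.of_pow hn')

end PB

end Pool.Agent.H821Z.Kok
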