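import Pool.Agent.H821Z.Kok.Core

namespace Pool.Agent.H821Z.Kok

universe u

open Polynomial

variable {F : Type u} [Field F] {R : Type u} [CommRing R] [Algebra F R]

namespace PB

variable (P : PB F R)

/-- The coefficientwise extension of the bracket, as a function. -/
noncomputable def pbr (p q : R[X]) : R[X] :=
  p.sum fun i a => q.sum fun j b => monomial (i + j) (P.br a b)

theorem pbr_add_left (p p' q : R[X]) : P.pbr (p + p') q = P.pbr p q + P.pbr p' q := by
  unfold pbr
  rw [Polynomial.sum_add_index]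
  · intro i; simp [Polynomial.sum]
  · intro i a b
    simp only [map_add, LinearMap.add_apply, Polynomial.sum, Finset.sum_add_distrib]

theorem pbr_add_right (p q q' : R[X]) : P.pbr p (q + q') = P.pbr p q + P.pbr p q' := by
  unfold pbr
  rw [← Polynomial.sum_add]
  congr 1
  funext i a
  rw [Polynomial.sum_add_index]
  · intro i; simp
  · intro i a b; simp only [map_add]

theorem pbr_mono (i j : ℕ) (a b : R) :
    P.pbr (monomial i a) (monomial j b) = monomial (i + j) (P.br a b) := by
  unfold pbr
  rw [Polynomial.sum_monomial_index, Polynomial.sum_monomial_index]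
  · simp
  · simp [Polynomial.sum]

theorem pbr_zero_left (q : R[X]) : P.pbr 0 q = 0 := by simp [pbr]

theorem pbr_zero_right (p : R[X]) : P.pbr p 0 = 0 := by simp [pbr, Polynomial.sum]

theorem pbr_smul_left (c : F) (p q : R[X]) : P.pbr (c • p) q = c • P.pbr p q := by
  induction p using Polynomial.induction_on' with
  | add p p' hp hp' => rw [smul_add, pbr_add_left, pbr_add_left, hp, hp', smul_add]
  | monomial i a =>
    induction q using Polynomial.induction_on' with
    | add q q' hq hq' => rw [pbr_add_right, pbr_add_right, hq, hq', smul_add]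
    | monomial j b =>
      rw [Polynomial.smul_monomial, pbr_mono, pbr_mono, Polynomial.smul_monomial, map_smul,
        LinearMap.smul_apply]

theorem pbr_smul_right (c : F) (p q : R[X]) : P.pbr p (c • q) = c • P.pbr p q := by
  induction p using Polynomial.induction_on' with
  | add p p' hp hp' => rw [pbr_add_left, pbr_add_left, hp, hp', smul_add]
  | monomial i a =>
    induction q using Polynomial.induction_on' with
    | add q q' hq hq' => rw [smul_add, pbr_add_right, pbr_add_right, hq, hq', smul_add]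
    | monomial j b =>
      rw [Polynomial.smul_monomial, pbr_mono, pbr_mono, Polynomial.smul_monomial, map_smul]

/-- The bracket on the polynomial ring. -/
noncomputable def poly : PB F R[X] where
  br := LinearMap.mk₂ F P.pbr P.pbr_add_left P.pbr_smul_left P.pbr_add_right P.pbr_smul_right
  skew p q := by
    simp only [LinearMap.mk₂_apply]
    induction p using Polynomial.induction_on' with
    | add p p' hp hp' => rw [pbr_add_left, pbr_add_right, hp, hp', neg_add]
    | monomial i a =>
      induction q using Polynomial.induction_on' with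
      | add q q' hq hq' => rw [pbr_add_left, pbr_add_right, hq, hq', neg_add]
      | monomial j b => rw [pbr_mono, pbr_mono, P.skew a b, map_neg, add_comm]
  leib p q r := by
    simp only [LinearMap.mk₂_apply]
    induction p using Polynomial.induction_on' with
    | add p p' hp hp' => rw [add_mul, pbr_add_left, pbr_add_left, hp, hp']; ring
    | monomial i a =>
      induction q using Polynomial.induction_on' with
      | add q q' hq hq' => rw [mul_add, pbr_add_left, pbr_add_left, hq, hq']; ring
      | monomial j b =>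
        induction r using Polynomial.induction_on' with
        | add r r' hr hr' => rw [pbr_add_right, pbr_add_right, pbr_add_right, hr, hr']; ring
        | monomial k c =>
          rw [monomial_mul_monomial, pbr_mono, pbr_mono, pbr_mono, monomial_mul_monomial,
            monomial_mul_monomial, P.leib, map_add, add_assoc i j k,
            show j + (i + k) = i + (j + k) by ring]

theorem poly_br (p q : R[X]) : P.poly.br p q = P.pbr p q := rfl

theorem poly_C (a b : R) : P.poly.br (C a) (C b) = C (P.br a b) := by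
  rw [poly_br, ← monomial_zero_left, ← monomial_zero_left, pbr_mono]; simp

theorem poly_X (q : R[X]) : P.poly.br X q = 0 := by
  rw [poly_br]
  induction q using Polynomial.induction_on' with
  | add q q' hq hq' => rw [pbr_add_right, hq, hq', add_zero]
  | monomial j b => rw [← monomial_one_one_eq_X, pbr_mono, P.br_one, map_zero]

theorem poly_C_const {l : R} (hl : ∀ r, P.br l r = 0) (q : R[X]) : P.poly.br (C l) q = 0 := by
  rw [poly_br]
  induction q using Polynomial.induction_on' with
  | add q q' hq hq' => rw [pbr_add_right, hq, hq', add_zero]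
  | monomial j b => rw [← monomial_zero_left, pbr_mono, hl, map_zero]

theorem br_pow_const {l : R} (hl : ∀ r, P.br l r = 0) (i : ℕ) (r : R) : P.br (l ^ i) r = 0 := by
  cases i with
  | zero => simpa using P.br_one r
  | succ i => rw [P.br_pow, hl, mul_zero]

theorem eval_poly {l : R} (hl : ∀ r, P.br l r = 0) (p q : R[X]) :
    eval l (P.poly.br p q) = P.br (eval l p) (eval l q) := by
  rw [poly_br]
  induction p using Polynomial.induction_on' with
  | add p p' hp hp' => rw [pbr_add_left, eval_add, eval_add, hp, hp', map_add, LinearMap.add_apply]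
  | monomial i a =>
    induction q using Polynomial.induction_on' with
    | add q q' hq hq' => rw [pbr_add_right, eval_add, eval_add, hq, hq', map_add]
    | monomial j b =>
      rw [pbr_mono, eval_monomial, eval_monomial, eval_monomial, P.leib, P.br_pow_const hl,
        P.leib', P.skew a (l ^ j), P.br_pow_const hl]
      ring

theorem poly_mem (𝔞 : Ideal R) (h𝔞 : ∀ a ∈ 𝔞, ∀ r, P.br a r ∈ 𝔞) :
    ∀ p ∈ 𝔞.map (C : R →+* R[X]), ∀ q, P.poly.br p q ∈ 𝔞.map (C : R →+* R[X]) := by
  intro p hp q
  rw [poly_br, pbr, Polynomial.sum]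
  refine Ideal.sum_mem _ fun i _ => ?_
  rw [Polynomial.sum]
  refine Ideal.sum_mem _ fun j _ => ?_
  rw [← C_mul_X_pow_eq_monomial]
  exact Ideal.mul_mem_right _ _ (Ideal.mem_map_of_mem _
    (h𝔞 _ (Ideal.mem_map_C_iff.1 hp i) _))

/-- Evaluation at a constant as an algebra map. -/
noncomputable def evalHom {l : R} (hl : ∀ r, P.br l r = 0) :
    P.poly.alg.carrier →ₙₐ[F] P.alg.carrier where
  toFun p := KT.of P (eval l (KT.val P.poly p))
  map_smul' c p := by
    show eval l (c • KT.val P.poly p) = c • eval l (KT.val P.poly p)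
    rw [Algebra.smul_def, eval_mul, Algebra.smul_def]
    congr 1
    rw [Polynomial.algebraMap_apply, eval_C]
  map_zero' := eval_zero (R := R)
  map_add' p q := eval_add (R := R)
  map_mul' p q := by
    show eval l (KT.val P.poly p * KT.val P.poly q + P.poly.br (KT.val P.poly p) (KT.val P.poly q))
      = eval l (KT.val P.poly p) * eval l (KT.val P.poly q) +
        P.br (eval l (KT.val P.poly p)) (eval l (KT.val P.poly q))
    rw [eval_add, eval_mul, P.eval_poly hl]

end PB

theorem poly_eq_zero (𝔞 : Ideal R) (l : ℕ → R)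
    (hl : ∀ i j, i ≠ j → ∀ a ∈ 𝔞, (l i - l j) * a = 0 → a = 0) (p : R[X])
    (hp : p ∈ 𝔞.map (C : R →+* R[X])) (h0 : ∀ i, eval (l i) p = 0) : p = 0 := by
  classical
  set n := p.natDegree + 1 with hn
  let V : Matrix (Fin n) (Fin n) R := Matrix.vandermonde fun i => l i
  let c : Fin n → R := fun i => p.coeff i
  have hV : V.mulVec c = 0 := by
    funext i
    have := h0 i
    rw [eval_eq_sum_range, ← hn, ← Fin.sum_univ_eq_sum_range (fun k => p.coeff k * l i ^ k)] at this
    simp only [V, c, Matrix.mulVec, dotProduct, Matrix.vandermonde_apply, Pi.zero_apply]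
    rw [← this]
    exact Finset.sum_congr rfl fun k _ => mul_comm _ _
  have hdet : ∀ i, V.det * c i = 0 := by
    intro i
    have h1 : (V.adjugate * V).mulVec c = 0 := by
      rw [← Matrix.mulVec_mulVec, hV, Matrix.mulVec_zero]
    rw [Matrix.adjugate_mul, Matrix.smul_mulVec, Matrix.one_mulVec] at h1
    exact congrFun h1 i
  have hinj : ∀ a ∈ 𝔞, V.det * a = 0 → a = 0 := by
    rw [Matrix.det_vandermonde]
    refine Finset.prod_induction _ (fun d => ∀ a ∈ 𝔞, d * a = 0 → a = 0) ?_ ?_ ?_
    · intro d e hd he a ha h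
      exact he a ha (hd _ (Ideal.mul_mem_left _ _ ha) (by rw [← mul_assoc]; exact h))
    · intro a _ h; simpa using h
    · intro i _
      refine Finset.prod_induction _ (fun d => ∀ a ∈ 𝔞, d * a = 0 → a = 0) ?_ ?_ ?_
      · intro d e hd he a ha h
        exact he a ha (hd _ (Ideal.mul_mem_left _ _ ha) (by rw [← mul_assoc]; exact h))
      · intro a _ h; simpa using h
      · intro j hj
        exact hl j i (fun h => (Finset.mem_Ioi.1 hj).ne' (Fin.ext h))
  ext k
  rw [coeff_zero]
  by_cases hk : k < n
  · exact hinj _ (Ideal.mem_map_C_iff.1 hp k) (hdet ⟨k, hk⟩)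
  · exact coeff_eq_zero_of_natDegree_lt (by omega)

namespace PB

variable (P : PB F R)

theorem satOn_poly {Γ : Set (NAPoly F)} (𝔞 : Ideal R) (h𝔞 : ∀ a ∈ 𝔞, ∀ r, P.br a r ∈ 𝔞)
    (l : ℕ → R) (hlc : ∀ i r, P.br (l i) r = 0)
    (hl : ∀ i j, i ≠ j → ∀ a ∈ 𝔞, (l i - l j) * a = 0 → a = 0)
    (hsat : SatOn P.alg {a | KT.val P a ∈ 𝔞} Γ) :
    SatOn P.poly.alg {a | KT.val P.poly a ∈ 𝔞.map (C : R →+* R[X])} Γ := by
  intro f hf φ hφ
  have hmem := lift_mem P.poly.alg (P.poly.subalg (𝔞.map (C : R →+* R[X]))
    (fun a ha b _ => P.poly_mem 𝔞 h𝔞 a ha b)) φ hφ f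
  refine poly_eq_zero 𝔞 l hl _ hmem fun i => ?_
  have h1 := lift_nat (P.evalHom (hlc i)) φ f
  refine h1.trans (hsat f hf _ fun k => ?_)
  show eval (l i) (KT.val P.poly (φ k)) ∈ 𝔞
  rw [eval_eq_sum_range]
  exact Ideal.sum_mem _ fun j _ => Ideal.mul_mem_right _ _ (Ideal.mem_map_C_iff.1 (hφ k) j)

/-- The case of infinitely many constants. -/
theorem inf_case {Γ : Set (NAPoly F)} (hΓ : LocallyAdmissible Γ) (h2 : (2 : F) ≠ 0) (𝔞 : Ideal R)
    (h𝔞 : ∀ a ∈ 𝔞, ∀ r, P.br a r ∈ 𝔞) (hsat : SatOn P.alg {a | KT.val P a ∈ 𝔞} Γ)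
    (l : ℕ → R) (hlc : ∀ i r, P.br (l i) r = 0)
    (hl : ∀ i j, i ≠ j → ∀ a ∈ 𝔞, (l i - l j) * a = 0 → a = 0)
    {x y : R} (hc : P.br x y ∈ 𝔞) (hn : ¬ IsNilpotent (P.br x y)) : False := by
  have h1 := P.satOn_poly 𝔞 h𝔞 l hlc hl hsat
  have h𝔞1 := P.poly_mem 𝔞 h𝔞
  have hl1 : ∀ i j, i ≠ j → ∀ a ∈ 𝔞.map (C : R →+* R[X]), (C (l i) - C (l j)) * a = 0 → a = 0 := by
    intro i j hij a ha h
    ext k
    rw [coeff_zero]
    apply hl i j hij _ (Ideal.mem_map_C_iff.1 ha k)
    rw [← map_sub] at h
    have := congrArg (fun p => coeff p k) h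
    simpa only [coeff_C_mul, coeff_zero] using this
  have h2' := P.poly.satOn_poly _ h𝔞1 (fun i => C (l i)) (fun i r => P.poly_C_const (hlc i) r)
    hl1 h1
  let ev : R[X][X] →+* R := (evalRingHom x).comp (evalRingHom (C y))
  have hbr : P.poly.poly.br (C (C x - X)) (C (C y) - X) = C (C (P.br x y)) := by
    rw [map_sub (P.poly.poly.br _), P.poly.poly.skew _ X, P.poly.poly_X, P.poly.poly_C,
      map_sub P.poly.br, LinearMap.sub_apply, P.poly_X, P.poly_C]
    simp
  refine P.poly.poly.core hΓ h2 _ (RingHom.ker ev) (P.poly.poly_mem _ h𝔞1) h2'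
    (x := C (C x - X)) (y := C (C y) - X) ?_ ?_ ?_ ?_
  · simp [ev, RingHom.mem_ker]
  · simp [ev, RingHom.mem_ker]
  · rw [hbr]
    exact Ideal.mem_map_of_mem _ (Ideal.mem_map_of_mem _ hc)
  · intro n hn'
    rw [hbr, RingHom.mem_ker] at hn'
    apply hn
    exact ⟨n, by simpa [ev] using hn'⟩

end PB

end Pool.Agent.H821Z.Kok
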